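import Mathlib
import Pool.Agent.Helper38_LDP.Stmts

/-! Squad LDP: module GEN. -/

namespace Pool.Agent.LDP.H26

open Polynomial
open scoped Polynomial.Bivariate

/-- exponent of `X` in `th` -/
def aE (ρ i : ℕ) : ℕ :=
  if i = 0 then 1 else if i = 1 then 1 else if i = 2 then 0 else if i = 3 then 0
  else if i = 4 ∧ ρ = 1 then 2 else 0

/-- exponent of `Y` in `th` -/
def bE (i : ℕ) : ℕ := if i = 0 then 1 else if i = 1 then 0 else if i = 2 then 1 else 0

/-- coefficient in `th` -/
def cE (ρ : ℕ) (L : Type*) [CommRing L] (i : ℕ) : L :=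
  if i = 0 then 1 else if i = 1 then 1 else if i = 2 then 1 else if i = 3 then 1
  else if i = 4 ∧ ρ = 1 then 1 else 0

theorem th_eq (ρ : ℕ) (L : Type*) [CommRing L] (i : ℕ) :
    th ρ L i = C (C (cE ρ L i)) * (C (X ^ aE ρ i) * Y ^ bE i) := by
  unfold th cE aE bE
  split_ifs <;> simp

theorem coeff_mon {L : Type*} [CommRing L] (c : L) (a b i j : ℕ) :
    ((C (C c) * (C (X ^ a) * Y ^ b) : L[X][Y]).coeff j).coeff i =
      if i = a ∧ j = b then c else 0 := by
  rw [coeff_C_mul, coeff_C_mul, coeff_C_mul, coeff_X_pow]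
  by_cases hj : j = b
  · rw [if_pos hj, mul_one, coeff_X_pow]
    by_cases hi : i = a
    · simp [hi, hj]
    · simp [hi]
  · rw [if_neg hj]; simp [hj]

theorem res_monomial (ρ n : ℕ) {L : Type*} [CommRing L] (m : Fin (n + 2) →₀ ℕ) (c : L) :
    res ρ n L (MvPolynomial.monomial m c) =
      C (C (c * ∏ i, cE ρ L i.1 ^ m i)) *
        (C (X ^ (∑ i, aE ρ i.1 * m i)) * Y ^ (∑ i, bE i.1 * m i)) := by
  unfold res
  rw [MvPolynomial.aeval_monomial, Finsupp.prod_fintype _ _ (fun i => by simp)]
  have h1 : ∀ i : Fin (n + 2), th ρ L i.1 ^ m i = C (C (cE ρ L i.1 ^ m i)) *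
      (C (X ^ (aE ρ i.1 * m i)) * Y ^ (bE i.1 * m i)) := by
    intro i
    rw [th_eq, mul_pow, mul_pow, ← C_pow, ← C_pow, ← C_pow, ← pow_mul, ← pow_mul]
  rw [Finset.prod_congr rfl (fun i _ => h1 i), Finset.prod_mul_distrib,
    Finset.prod_mul_distrib, ← map_prod, ← map_prod, ← map_prod, Finset.prod_pow_eq_pow_sum,
    Finset.prod_pow_eq_pow_sum, C_mul, C_mul, mul_assoc]
  rfl

theorem exponent_corner (ρ n d : ℕ) (m : Fin (n + 2) →₀ ℕ) (hm : m.degree = d)
    (ha : d = ∑ i, aE ρ i.1 * m i) (hb : d = ∑ i, bE i.1 * m i) : m = Finsupp.single 0 d := by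
  have hdeg : ∑ i, m i = d := by rw [← hm, Finsupp.degree_eq_sum]
  have hb1 : ∀ i, bE i ≤ 1 := by
    intro i; unfold bE; split_ifs <;> omega
  -- indices with `bE = 0` do not occur
  have h0 : ∀ i : Fin (n + 2), bE i.1 * m i = m i := by
    have h1 : ∑ i : Fin (n + 2), bE i.1 * m i = ∑ i, m i := by rw [← hb, hdeg]
    have h2 : ∀ i ∈ (Finset.univ : Finset (Fin (n + 2))), bE i.1 * m i ≤ m i := by
      intro i _
      calc bE i.1 * m i ≤ 1 * m i := Nat.mul_le_mul_right _ (hb1 _)
        _ = m i := one_mul _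
    intro i
    exact (Finset.sum_eq_sum_iff_of_le h2).1 h1 i (Finset.mem_univ i)
  have h3 : ∀ i : Fin (n + 2), i.1 ≠ 0 → i.1 ≠ 2 → m i = 0 := by
    intro i hi0 hi2
    have := h0 i
    unfold bE at this
    rw [if_neg hi0] at this
    by_cases h1 : i.1 = 1
    · rw [if_pos h1, zero_mul] at this; exact this.symm
    · rw [if_neg h1, if_neg hi2, zero_mul] at this; exact this.symm
  have h4 : ∀ i : Fin (n + 2), aE ρ i.1 * m i = if i = 0 then m 0 else 0 := by
    intro i
    by_cases hi : i = 0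
    · subst hi; simp [aE]
    · rw [if_neg hi]
      have hi' : i.1 ≠ 0 := fun h => hi (Fin.ext h)
      by_cases h2 : i.1 = 2
      · have : aE ρ i.1 = 0 := by rw [h2]; rfl
        rw [this, zero_mul]
      · rw [h3 i hi' h2, mul_zero]
  have h5 : d = m 0 := by
    rw [ha, Finset.sum_congr rfl (fun i _ => h4 i), Finset.sum_ite_eq' Finset.univ (0 : Fin (n + 2))]
    simp
  -- the remaining ones vanish
  have h6 : ∀ i : Fin (n + 2), i ≠ 0 → m i = 0 := by
    intro i hi
    have h7 : m 0 + m i ≤ ∑ i, m i := by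
      have : ∑ j ∈ ({0, i} : Finset (Fin (n + 2))), m j ≤ ∑ j, m j :=
        Finset.sum_le_sum_of_subset (Finset.subset_univ _)
      rwa [Finset.sum_pair (Ne.symm hi)] at this
    omega
  ext i
  by_cases hi : i = 0
  · subst hi; rw [Finsupp.single_eq_same]; exact h5.symm
  · rw [h6 i hi, Finsupp.single_eq_of_ne hi]

theorem corner_coeff (ρ n d : ℕ) {L : Type*} [CommRing L] (h : MvPolynomial (Fin (n + 2)) L)
    (hh : h ∈ MvPolynomial.homogeneousSubmodule (Fin (n + 2)) L d) :
    ((res ρ n L h).coeff d).coeff d = h.coeff (Finsupp.single 0 d) := by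
  classical
  rw [MvPolynomial.mem_homogeneousSubmodule] at hh
  conv_lhs => rw [← MvPolynomial.support_sum_monomial_coeff h]
  rw [map_sum, finsetSum_coeff, finsetSum_coeff]
  have h1 : ∀ m ∈ h.support, ((res ρ n L (MvPolynomial.monomial m (h.coeff m))).coeff d).coeff d =
      if m = Finsupp.single 0 d then h.coeff m else 0 := by
    intro m hm
    have hdeg : m.degree = d := by
      by_contra hne
      rw [MvPolynomial.mem_support_iff] at hm
      exact hm (hh.coeff_eq_zero hne)
    rw [res_monomial, coeff_mon]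
    by_cases hs : m = Finsupp.single 0 d
    · rw [if_pos hs]
      have ha : ∀ g : ℕ → ℕ, g 0 = 1 → ∑ i : Fin (n + 2), g i.1 * m i = d := by
        intro g hg
        rw [Finset.sum_eq_single 0]
        · rw [hs, Finsupp.single_eq_same]; simp [hg]
        · intro i _ hi
          rw [hs, Finsupp.single_eq_of_ne hi, mul_zero]
        · intro h; exact absurd (Finset.mem_univ _) h
      rw [if_pos ⟨(ha _ rfl).symm, (ha _ rfl).symm⟩]
      have hc : ∏ i : Fin (n + 2), cE ρ L i.1 ^ m i = 1 := by
        apply Finset.prod_eq_one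
        intro i _
        by_cases hi : i = 0
        · subst hi; simp [cE]
        · rw [hs, Finsupp.single_eq_of_ne hi, pow_zero]
      rw [hc, mul_one]
    · rw [if_neg hs, if_neg]
      rintro ⟨ha, hb⟩
      exact hs (exponent_corner ρ n d m hdeg ha hb)
  rw [Finset.sum_congr rfl h1, Finset.sum_ite_eq']
  split_ifs with h2
  · rfl
  · rw [MvPolynomial.notMem_support_iff] at h2; exact h2.symm

theorem bmap_res (ρ n : ℕ) {A B : Type*} [CommRing A] [CommRing B] (φ : A →+* B)
    (p : MvPolynomial (Fin (n + 2)) A) :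
    bmap φ (res ρ n A p) = res ρ n B (MvPolynomial.map φ p) := by
  have h : (mapRingHom (mapRingHom φ)).comp (res ρ n A : MvPolynomial (Fin (n + 2)) A →+* A[X][Y]) =
      (res ρ n B : MvPolynomial (Fin (n + 2)) B →+* B[X][Y]).comp (MvPolynomial.map φ) := by
    apply MvPolynomial.ringHom_ext
    · intro a
      simp only [RingHom.comp_apply, MvPolynomial.map_C]
      change mapRingHom (mapRingHom φ) (res ρ n A (MvPolynomial.C a)) =
        res ρ n B (MvPolynomial.C (φ a))
      unfold res
      rw [MvPolynomial.aeval_C, MvPolynomial.aeval_C]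
      change mapRingHom (mapRingHom φ) (C (C a)) = C (C (φ a))
      simp
    · intro i
      simp only [RingHom.comp_apply, MvPolynomial.map_X]
      change mapRingHom (mapRingHom φ) (res ρ n A (MvPolynomial.X i)) =
        res ρ n B (MvPolynomial.X i)
      unfold res
      rw [MvPolynomial.aeval_X, MvPolynomial.aeval_X]
      unfold th
      split_ifs <;> simp
  exact congrArg (fun f => f p) h

theorem degree_of_mem {n d : ℕ} {m : Fin (n + 2) →₀ ℕ} :
    m ∈ (Finset.univ : Finset (Fin (n + 2))).finsuppAntidiag d ↔ m.degree = d := by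
  rw [Finset.mem_finsuppAntidiag, Finsupp.degree_eq_sum]
  simp

theorem FA_coeff (n d : ℕ) (m : Fin (n + 2) →₀ ℕ) :
    (FA n d).coeff m = if m.degree = d then cf n d m else 0 := by
  classical
  unfold FA
  rw [MvPolynomial.coeff_sum]
  simp only [MvPolynomial.coeff_monomial]
  rw [Finset.sum_ite_eq']
  simp only [degree_of_mem]

theorem FA_homog (n d : ℕ) :
    FA n d ∈ MvPolynomial.homogeneousSubmodule (Fin (n + 2)) (AA n d) d := by
  rw [MvPolynomial.mem_homogeneousSubmodule]
  unfold FA
  apply MvPolynomial.IsHomogeneous.sum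
  intro m hm
  exact MvPolynomial.isHomogeneous_monomial _ (degree_of_mem.1 hm)

theorem gen (re1 : Re1Stmt) (re2 : Re2Stmt) : GenStmt := by
  intro ρ n d hpar hn
  have hρ : ρ ≤ 1 := by omega
  have hcf : cf n d (Finsupp.single 0 d) = 1 := by
    unfold cf
    rw [dif_neg]
    rintro ⟨_, h2⟩
    exact h2 rfl
  refine ⟨⟨re1 ρ n d _ _ hρ (FA_homog n d), ?_⟩, bmap_res ρ n _ _, ?_, ?_⟩
  · unfold fA
    rw [corner_coeff ρ n d _ (FA_homog n d), FA_coeff, if_pos (by simp), hcf]
  · rw [MvPolynomial.mem_homogeneousSubmodule]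
    have := FA_homog n d
    rw [MvPolynomial.mem_homogeneousSubmodule] at this
    exact this.map _
  · intro L _ _ f hf
    obtain ⟨h, hh, hres⟩ := re2 ρ n d L f hρ hn hf.mem
    have hcorner : h.coeff (Finsupp.single 0 d) = 1 := by
      rw [← corner_coeff ρ n d h hh, hres]
      exact hf.corner
    let φ : AA n d →+* L := MvPolynomial.eval₂Hom (algebraMap ℂ L) (fun m => h.coeff m.1)
    refine ⟨φ, ?_⟩
    have hmap : MvPolynomial.map φ (FA n d) = h := by
      ext m
      rw [MvPolynomial.coeff_map, FA_coeff]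
      by_cases hm : m.degree = d
      · rw [if_pos hm]
        by_cases hs : m = Finsupp.single 0 d
        · rw [hs, hcf, map_one, hcorner]
        · unfold cf
          rw [dif_pos ⟨hm, hs⟩]
          change MvPolynomial.eval₂Hom (algebraMap ℂ L) (fun m : Coef n d => h.coeff m.1)
            (MvPolynomial.X ⟨m, _⟩) = _
          rw [MvPolynomial.eval₂Hom_X']
      · rw [if_neg hm, map_zero]
        rw [MvPolynomial.mem_homogeneousSubmodule] at hh
        exact (hh.coeff_eq_zero hm).symm
    unfold fA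
    rw [bmap_res, hmap, hres]

end Pool.Agent.LDP.H26
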