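import Mathlib
import Pool.Agent.Helper38_LDP.Stmts

/-! Squad LDP: module IDL. -/

namespace Pool.Agent.LDP.H26

open Polynomial
open scoped Polynomial.Bivariate

section

variable (ρ n : ℕ) {K E : Type} [Field K] [Field E] [Algebra K E] (s t : E)

/-- `ev` as an algebra homomorphism -/
noncomputable def evA : K[X][Y] →ₐ[K] E :=
  { toRingHom := (evalEvalRingHom s t).comp (mapRingHom (mapRingHom (algebraMap K E)))
    commutes' := by
      intro r
      change evalEval s t ((C (C r) : K[X][Y]).map (mapRingHom (algebraMap K E))) = _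
      simp }

theorem evA_apply (G : K[X][Y]) : evA s t G = ev s t G := rfl

/-- the homomorphism with kernel `P` -/
noncomputable def Phi : MvPolynomial (Fin (n + 2)) K →ₐ[K] E[X] :=
  MvPolynomial.aeval (fun i : Fin (n + 2) => C (evA s t (th ρ K i.1)) * X)

theorem Phi_monomial (m : Fin (n + 2) →₀ ℕ) (c : K) :
    Phi ρ n s t (MvPolynomial.monomial m c) =
      C (evA s t (res ρ n K (MvPolynomial.monomial m c))) * X ^ m.degree := by
  unfold Phi res
  rw [MvPolynomial.aeval_monomial, MvPolynomial.aeval_monomial, map_mul, map_finsuppProd,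
    AlgHom.commutes, C_mul, Finsupp.prod_fintype _ _ (fun i => by simp),
    Finsupp.prod_fintype _ _ (fun i => by simp)]
  simp only [mul_pow, Finset.prod_mul_distrib, map_pow, map_prod, Finset.prod_pow_eq_pow_sum]
  rw [Finsupp.degree_eq_sum, ← mul_assoc]
  rfl

theorem Phi_homog (u : ℕ) (h : MvPolynomial (Fin (n + 2)) K)
    (hh : h ∈ MvPolynomial.homogeneousSubmodule (Fin (n + 2)) K u) :
    Phi ρ n s t h = C (evA s t (res ρ n K h)) * X ^ u := by
  classical
  rw [MvPolynomial.mem_homogeneousSubmodule] at hh
  conv_lhs => rw [← MvPolynomial.support_sum_monomial_coeff h]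
  conv_rhs => rw [← MvPolynomial.support_sum_monomial_coeff h]
  rw [map_sum, map_sum, map_sum, map_sum, Finset.sum_mul]
  apply Finset.sum_congr rfl
  intro m hm
  have hdeg : m.degree = u := by
    by_contra hne
    rw [MvPolynomial.mem_support_iff] at hm
    exact hm (hh.coeff_eq_zero hne)
  rw [Phi_monomial, hdeg]

theorem mem_ker_homog (u : ℕ) (h : MvPolynomial (Fin (n + 2)) K)
    (hh : h ∈ MvPolynomial.homogeneousSubmodule (Fin (n + 2)) K u) :
    h ∈ RingHom.ker (Phi ρ n s t) ↔ ev s t (res ρ n K h) = 0 := by
  rw [RingHom.mem_ker, Phi_homog ρ n s t u h hh, ← evA_apply]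
  constructor
  · intro h0
    rcases mul_eq_zero.1 h0 with h1 | h1
    · exact C_eq_zero.1 h1
    · exact absurd h1 (pow_ne_zero _ X_ne_zero)
  · intro h0
    rw [h0, C_0, zero_mul]

theorem coeff_Phi (p : MvPolynomial (Fin (n + 2)) K) (u : ℕ) :
    (Phi ρ n s t p).coeff u =
      evA s t (res ρ n K (MvPolynomial.homogeneousComponent u p)) := by
  conv_lhs => rw [← MvPolynomial.sum_homogeneousComponent p]
  rw [map_sum, finsetSum_coeff]
  have h1 : ∀ i ∈ Finset.range (p.totalDegree + 1),
      (Phi ρ n s t (MvPolynomial.homogeneousComponent i p)).coeff u =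
        if u = i then evA s t (res ρ n K (MvPolynomial.homogeneousComponent u p)) else 0 := by
    intro i _
    rw [Phi_homog ρ n s t i _ ((MvPolynomial.mem_homogeneousSubmodule _ _).2
      (MvPolynomial.homogeneousComponent_isHomogeneous i p)), coeff_C_mul, coeff_X_pow]
    by_cases hu : u = i
    · subst hu; simp
    · simp [hu]
  rw [Finset.sum_congr rfl h1, Finset.sum_ite_eq]
  split_ifs with h2
  · rfl
  · rw [Finset.mem_range, not_lt] at h2
    rw [MvPolynomial.homogeneousComponent_eq_zero _ _ (by omega), map_zero, map_zero]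

theorem idl : IdlStmt := by
  intro ρ n K E _ _ _ _ s t hρ hn hgen
  refine ⟨RingHom.ker (Phi ρ n s t), ⟨RingHom.ker_isPrime _, ?_, Module.finrank K E, ?_⟩, ?_⟩
  · intro p hp u
    rw [mem_ker_homog ρ n s t u _ ((MvPolynomial.mem_homogeneousSubmodule _ _).2
      (MvPolynomial.homogeneousComponent_isHomogeneous u p)), ← evA_apply, ← coeff_Phi,
      RingHom.mem_ker.1 hp, coeff_zero]
  · intro u hu
    -- the linear map
    let lm : MvPolynomial.homogeneousSubmodule (Fin (n + 2)) K u →ₗ[K] E :=
      ((evA s t).comp (res ρ n K)).toLinearMap ∘ₗ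
        (MvPolynomial.homogeneousSubmodule (Fin (n + 2)) K u).subtype
    have hker : ((RingHom.ker (Phi ρ n s t)).restrictScalars K).comap
        (MvPolynomial.homogeneousSubmodule (Fin (n + 2)) K u).subtype = LinearMap.ker lm := by
      ext ⟨h, hh⟩
      rw [Submodule.mem_comap, Submodule.restrictScalars_mem, LinearMap.mem_ker]
      exact mem_ker_homog ρ n s t u h hh
    have hsurj : Function.Surjective lm := by
      intro e
      obtain ⟨p, hp⟩ := hgen e
      have hint : IsIntegral K s := Algebra.IsIntegral.isIntegral s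
      set q := p %ₘ minpoly K s with hq
      have hq1 : aeval s q = e := by
        rw [← hp, hq, ← modByMonic_add_div p (minpoly K s), map_add, map_mul, minpoly.aeval,
          zero_mul, add_zero, modByMonic_add_div]
      have hdeg : q.natDegree ≤ u := by
        have h1 : q.natDegree < (minpoly K s).natDegree :=
          natDegree_modByMonic_lt _ (minpoly.monic hint) (minpoly.ne_one K s)
        have h2 : (minpoly K s).natDegree ≤ Module.finrank K E := minpoly.natDegree_le s
        omega
      let i1 : Fin (n + 2) := ⟨1, by omega⟩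
      let i3 : Fin (n + 2) := ⟨3, by omega⟩
      let h : MvPolynomial (Fin (n + 2)) K := ∑ i ∈ Finset.range (u + 1),
        MvPolynomial.C (q.coeff i) * (MvPolynomial.X i1 ^ i * MvPolynomial.X i3 ^ (u - i))
      have hh : h ∈ MvPolynomial.homogeneousSubmodule (Fin (n + 2)) K u := by
        rw [MvPolynomial.mem_homogeneousSubmodule]
        apply MvPolynomial.IsHomogeneous.sum
        intro i hi
        have hi' : i ≤ u := by rw [Finset.mem_range] at hi; omega
        have h3 := (MvPolynomial.isHomogeneous_C (Fin (n + 2)) (q.coeff i)).mul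
          (((MvPolynomial.isHomogeneous_X K i1).pow i).mul
            ((MvPolynomial.isHomogeneous_X K i3).pow (u - i)))
        have h4 : 0 + (1 * i + 1 * (u - i)) = u := by omega
        rwa [h4] at h3
      refine ⟨⟨h, hh⟩, ?_⟩
      change evA s t (res ρ n K h) = e
      have h5 : res ρ n K h = C q := by
        rw [map_sum]
        have h6 : ∀ i ∈ Finset.range (u + 1), res ρ n K
            (MvPolynomial.C (q.coeff i) * (MvPolynomial.X i1 ^ i * MvPolynomial.X i3 ^ (u - i))) =
            C (C (q.coeff i) * X ^ i) := by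
          intro i _
          unfold res
          rw [map_mul, map_mul, map_pow, map_pow, MvPolynomial.aeval_C, MvPolynomial.aeval_X,
            MvPolynomial.aeval_X]
          have h7 : th ρ K i1.1 = C X := rfl
          have h8 : th ρ K i3.1 = 1 := rfl
          rw [h7, h8, one_pow, mul_one, C_mul, C_pow]
          rfl
        rw [Finset.sum_congr rfl h6, ← map_sum]
        congr 1
        rw [← as_sum_range_C_mul_X_pow' (p := q) (n := u + 1) (by omega)]
      rw [h5, evA_apply]
      unfold ev
      rw [map_C, evalEval_C, coe_mapRingHom, eval_map, ← aeval_def, hq1]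
    unfold hilb
    rw [hker]
    rw [(LinearMap.quotKerEquivOfSurjective lm hsurj).finrank_eq]
  · intro u h hh
    exact mem_ker_homog ρ n s t u h hh

end

end Pool.Agent.LDP.H26
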