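import Mathlib
import Pool.Agent.Helper26_LDP.Gen

/-! Squad LDP: module SEM. -/

namespace Pool.Agent.LDP.H26

open Polynomial
open scoped Polynomial.Bivariate

/-- a linearly independent finite family of functions has a nonvanishing minor -/
theorem exists_minor {F ι Z : Type*} [Field F] [Fintype ι] [DecidableEq ι] (v : ι → Z → F)
    (hv : LinearIndependent F v) :
    ∃ μ : ι → Z, (Matrix.of fun i i' => v i (μ i')).det ≠ 0 := by
  classical
  set w : Z → (ι → F) := fun z i => v i z with hw
  have hspan : Submodule.span F (Set.range w) = ⊤ := by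
    by_contra hne
    obtain ⟨f, hf0, hf⟩ := Submodule.exists_le_ker_of_lt_top _ (lt_top_iff_ne_top.mpr hne)
    apply hf0
    have h1 : ∀ z, ∑ i, f (Pi.single i 1) * v i z = 0 := by
      intro z
      have h2 : f (w z) = 0 := hf (Submodule.subset_span ⟨z, rfl⟩)
      have h3 : w z = ∑ i, v i z • (Pi.single i (1 : F) : ι → F) := by
        ext k
        rw [Finset.sum_apply]
        simp [Pi.single_apply, hw]
      rw [h3, map_sum] at h2
      rw [← h2]
      apply Finset.sum_congr rfl
      intro i _
      rw [map_smul, smul_eq_mul, mul_comm]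
    have h4 : ∀ i, f (Pi.single i 1) = 0 := by
      apply Fintype.linearIndependent_iff.mp hv
      funext z
      rw [Finset.sum_apply]
      simp only [Pi.smul_apply, smul_eq_mul, Pi.zero_apply]
      exact h1 z
    apply LinearMap.pi_ext'
    intro i
    apply LinearMap.ext_ring
    exact h4 i
  obtain ⟨κ, b, hb, hsp, hli⟩ := exists_linearIndependent' F w
  rw [hspan] at hsp
  let B := Module.Basis.mk hli hsp.ge
  have _ : Fintype κ := FiniteDimensional.fintypeBasisIndex B
  have hcard : Fintype.card ι = Fintype.card κ := by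
    rw [← Module.finrank_eq_card_basis B, Module.finrank_fintype_fun_eq_card]
  obtain ⟨e⟩ := Fintype.card_eq.mp hcard
  refine ⟨fun i => b (e i), ?_⟩
  have h5 : LinearIndependent F (fun i : ι => w (b (e i))) := hli.comp e e.injective
  have h6 : IsUnit (Matrix.of (fun i : ι => w (b (e i)))) := by
    rw [← Matrix.linearIndependent_rows_iff_isUnit]
    exact h5
  rw [Matrix.isUnit_iff_isUnit_det] at h6
  have h7 : (Matrix.of fun i i' => v i (b (e i'))) = (Matrix.of (fun i : ι => w (b (e i)))).transpose := by
    ext i i'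
    rfl
  rw [h7, Matrix.det_transpose]
  exact h6.ne_zero

/-- the monomial `X^i Y^j` -/
noncomputable def mo (L : Type*) [CommRing L] (i j : ℕ) : L[X][Y] := C (X ^ i) * Y ^ j

theorem coeff_mo {L : Type*} [CommRing L] (c : L) (i j i' j' : ℕ) :
    ((C (C c) * mo L i j).coeff j').coeff i' = if i' = i ∧ j' = j then c else 0 :=
  coeff_mon c i j i' j'

/-- expansion into monomials -/
theorem expand {L : Type*} [CommRing L] (G : L[X][Y]) (T : Finset (ℕ × ℕ))
    (hT : ∀ i j, (G.coeff j).coeff i ≠ 0 → (i, j) ∈ T) :
    G = ∑ x ∈ T, C (C ((G.coeff x.2).coeff x.1)) * mo L x.1 x.2 := by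
  classical
  ext j i
  rw [finsetSum_coeff, finsetSum_coeff]
  simp only [coeff_mo]
  by_cases h : (G.coeff j).coeff i = 0
  · rw [h]
    symm
    apply Finset.sum_eq_zero
    intro x _
    split_ifs with hx
    · rw [← hx.1, ← hx.2, h]
    · rfl
  · rw [Finset.sum_eq_single (i, j)]
    · simp
    · intro x _ hx
      rw [if_neg]
      rintro ⟨h1, h2⟩
      exact hx (Prod.ext h1.symm h2.symm)
    · intro hx
      exact absurd (hT i j h) hx

/-- a finite set containing the support -/
theorem exists_supp {L : Type*} [CommRing L] (G : L[X][Y]) :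
    ∃ T : Finset (ℕ × ℕ), ∀ i j, (G.coeff j).coeff i ≠ 0 ↔ (i, j) ∈ T := by
  classical
  refine ⟨G.support.biUnion (fun j => (G.coeff j).support.image (fun i => (i, j))), ?_⟩
  intro i j
  simp only [Finset.mem_biUnion, Finset.mem_image, mem_support_iff, Prod.mk.injEq]
  constructor
  · intro h
    exact ⟨j, fun h0 => h (by rw [h0, coeff_zero]), i, h, rfl, rfl⟩
  · rintro ⟨j', _, i', h, rfl, rfl⟩
    exact h

section num

variable {L : Type*} [CommRing L] (m d b : ℕ) (f : L[X][Y])

theorem num_add (G H : L[X][Y]) : num m d b f (G + H) = num m d b f G + num m d b f H := by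
  unfold num
  rw [← Finset.sum_add_distrib]
  apply Finset.sum_congr rfl
  intro j _
  rw [coeff_add]; ring

theorem num_C_mul (c : L) (G : L[X][Y]) :
    num m d b f (C (C c) * G) = C c * num m d b f G := by
  unfold num
  rw [Finset.mul_sum]
  apply Finset.sum_congr rfl
  intro j _
  rw [coeff_C_mul]; ring

theorem num_zero : num m d b f 0 = 0 := by
  unfold num
  apply Finset.sum_eq_zero
  intro j _
  rw [coeff_zero]; ring

theorem num_sum {ι : Type*} (s : Finset ι) (g : ι → L[X][Y]) :
    num m d b f (∑ i ∈ s, g i) = ∑ i ∈ s, num m d b f (g i) := by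
  classical
  induction s using Finset.induction_on with
  | empty => simp [num_zero]
  | insert a s ha ih => rw [Finset.sum_insert ha, Finset.sum_insert ha, num_add, ih]

end num

section bmap

variable {A B : Type*} [CommRing A] [CommRing B] (φ : A →+* B) (m d b : ℕ) (f G : A[X][Y])

theorem coeff_bmap (j : ℕ) : (bmap φ G).coeff j = (G.coeff j).map φ := by
  unfold bmap
  rw [coeff_map]; rfl

theorem wP_bmap : wP m d (bmap φ f) = (wP m d f).map φ := by
  unfold wP
  rw [coeff_bmap, Polynomial.map_mul, Polynomial.map_pow, map_X]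

theorem num_bmap : num m d b (bmap φ f) (bmap φ G) = (num m d b f G).map φ := by
  unfold num
  rw [Polynomial.map_sum]
  apply Finset.sum_congr rfl
  intro j _
  rw [coeff_bmap, coeff_bmap, wP_bmap, Polynomial.map_mul, Polynomial.map_mul,
    Polynomial.map_pow, Polynomial.map_pow, Polynomial.map_neg]

theorem RR_bmap : RR m d (bmap φ f) = (RR m d f).map φ := by
  unfold RR
  rw [wP_bmap, Polynomial.map_sub, Polynomial.map_sub, Polynomial.map_mul, Polynomial.map_pow,
    Polynomial.map_pow, map_X, Polynomial.map_sum, Polynomial.map_pow, Polynomial.map_neg,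
    coeff_bmap]
  congr 2
  apply Finset.sum_congr rfl
  intro j _
  rw [coeff_bmap, Polynomial.map_mul, Polynomial.map_mul, Polynomial.map_mul,
    Polynomial.map_pow, Polynomial.map_pow, Polynomial.map_pow, Polynomial.map_neg, map_X]

theorem mo_bmap (i j : ℕ) : bmap φ (mo A i j) = mo B i j := by
  unfold bmap mo
  simp

theorem good_bmap {ρ d : ℕ} {f : A[X][Y]} (hf : Good ρ d f) : Good ρ d (bmap φ f) := by
  constructor
  · intro i j hij
    apply hf.mem i j
    intro h0
    apply hij
    rw [coeff_bmap, coeff_map, h0, map_zero]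
  · rw [coeff_bmap, coeff_map, hf.corner, map_one]

end bmap

/-- coefficients of a product -/
theorem coeff_mul2 {L : Type*} [CommRing L] (f H : L[X][Y]) (i j : ℕ) :
    ((f * H).coeff j).coeff i = ∑ x ∈ Finset.HasAntidiagonal.antidiagonal j, ∑ y ∈ Finset.HasAntidiagonal.antidiagonal i,
      (f.coeff x.1).coeff y.1 * (H.coeff x.2).coeff y.2 := by
  rw [coeff_mul, finsetSum_coeff]
  apply Finset.sum_congr rfl
  intro x _
  rw [coeff_mul]

/-- a multiple of `f` has a monomial divisible by the corner monomial -/
theorem top_mul {ρ d : ℕ} {L : Type*} [CommRing L] {f : L[X][Y]} (hf : Good ρ d f)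
    (H : L[X][Y]) (hsupp : ∀ i j, ((f * H).coeff j).coeff i ≠ 0 → i < d ∨ j < d) : H = 0 := by
  classical
  by_contra hne
  obtain ⟨T, hT⟩ := exists_supp H
  have hTne : T.Nonempty := by
    by_contra h
    rw [Finset.not_nonempty_iff_eq_empty] at h
    apply hne
    ext j i
    by_contra h2
    have h3 : (i, j) ∈ T := (hT i j).1 (by simpa using h2)
    rw [h] at h3
    exact absurd h3 (Finset.notMem_empty _)
  obtain ⟨⟨p, q⟩, hpq, hmax⟩ := Finset.exists_max_image T (fun x => x.1 + (1 + ρ) * x.2) hTne
  have hcoef : ((f * H).coeff (d + q)).coeff (d + p) = (H.coeff q).coeff p := by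
    rw [coeff_mul2]
    rw [Finset.sum_eq_single (d, q)]
    · rw [Finset.sum_eq_single (d, p)]
      · rw [hf.corner, one_mul]
      · rintro ⟨k, k'⟩ hk hne2
        rw [Finset.HasAntidiagonal.mem_antidiagonal] at hk
        by_contra h0
        have h1 : (f.coeff d).coeff k ≠ 0 := fun h => h0 (by rw [h, zero_mul])
        have h2 : (H.coeff q).coeff k' ≠ 0 := fun h => h0 (by rw [h, mul_zero])
        have h3 := hf.mem k d h1
        have h4 := hmax (k', q) ((hT k' q).1 h2)
        simp only at h4 hk
        apply hne2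
        have h5 : (1 + ρ) * d = d + ρ * d := by ring
        have h6 : k = d := by omega
        have h7 : k' = p := by omega
        rw [h6, h7]
      · intro h
        exact absurd (by rw [Finset.HasAntidiagonal.mem_antidiagonal]) h
    · rintro ⟨l, l'⟩ hl hne2
      rw [Finset.HasAntidiagonal.mem_antidiagonal] at hl
      apply Finset.sum_eq_zero
      rintro ⟨k, k'⟩ hk
      rw [Finset.HasAntidiagonal.mem_antidiagonal] at hk
      by_contra h0
      have h1 : (f.coeff l).coeff k ≠ 0 := fun h => h0 (by rw [h, zero_mul])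
      have h2 : (H.coeff l').coeff k' ≠ 0 := fun h => h0 (by rw [h, mul_zero])
      have h3 := hf.mem k l h1
      have h4 := hmax (k', l') ((hT k' l').1 h2)
      simp only at h4 hk hl
      apply hne2
      -- weights
      have h5 : (1 + ρ) * d = d + ρ * d := by ring
      have h6 : (1 + ρ) * l' = l' + ρ * l' := by ring
      have h7 : (1 + ρ) * q = q + ρ * q := by ring
      have h8 : ρ * l + ρ * l' = ρ * d + ρ * q := by rw [← mul_add, ← mul_add, hl]
      have h9 : l = d := by omega
      have h10 : l' = q := by omega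
      rw [h9, h10]
    · intro h
      exact absurd (by rw [Finset.HasAntidiagonal.mem_antidiagonal]) h
  have h1 : ((f * H).coeff (d + q)).coeff (d + p) ≠ 0 := by
    rw [hcoef]; exact (hT p q).2 hpq
  have := hsupp _ _ h1
  omega

/-- division by the corner monomial -/
theorem division {ρ d a b : ℕ} {L : Type*} [CommRing L] {f : L[X][Y]} (hf : Good ρ d f)
    (hdb : d ≤ b) (G : L[X][Y]) (hG : G ∈ V ρ L a b) :
    ∃ H : L[X][Y], H.natDegree ≤ b - d ∧ ∀ i j, ((G - f * H).coeff j).coeff i ≠ 0 →
      j ≤ b ∧ i + ρ * j ≤ a ∧ (i < d ∨ j < d) := by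
  classical
  -- the submodule of the good elements
  let M : Submodule L L[X][Y] :=
    { carrier := {G | ∃ H : L[X][Y], H.natDegree ≤ b - d ∧
        ∀ i j, ((G - f * H).coeff j).coeff i ≠ 0 → j ≤ b ∧ i + ρ * j ≤ a ∧ (i < d ∨ j < d)}
      zero_mem' := ⟨0, by simp, by intro i j h; simp at h⟩
      add_mem' := by
        rintro G G' ⟨H, hH, h1⟩ ⟨H', hH', h2⟩
        refine ⟨H + H', (natDegree_add_le _ _).trans (max_le hH hH'), ?_⟩
        intro i j hij
        have h3 : G + G' - f * (H + H') = (G - f * H) + (G' - f * H') := by ring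
        rw [h3, coeff_add, coeff_add] at hij
        by_cases h4 : ((G - f * H).coeff j).coeff i = 0
        · rw [h4, zero_add] at hij
          exact h2 i j hij
        · exact h1 i j h4
      smul_mem' := by
        rintro c G ⟨H, hH, h1⟩
        refine ⟨c • H, (natDegree_smul_le _ _).trans hH, ?_⟩
        intro i j hij
        apply h1 i j
        intro h0
        apply hij
        have h3 : c • G - f * (c • H) = c • (G - f * H) := by
          rw [smul_sub, mul_smul_comm]
        rw [h3, coeff_smul, coeff_smul, h0, smul_zero] }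
  have hsmul : ∀ (c : L) (P : L[X][Y]), C (C c) * P = c • P := by
    intro c P
    ext j i
    rw [coeff_C_mul, coeff_C_mul, coeff_smul, coeff_smul, smul_eq_mul]
  have hsum : ∀ P : L[X][Y], (∀ i j, (P.coeff j).coeff i ≠ 0 → mo L i j ∈ M) → P ∈ M := by
    intro P hP
    obtain ⟨T, hT⟩ := exists_supp P
    rw [expand P T (fun i j h => (hT i j).1 h)]
    apply Submodule.sum_mem
    rintro ⟨i, j⟩ hx
    rw [hsmul]
    exact M.smul_mem _ (hP i j ((hT i j).2 hx))
  have hmono : ∀ N i j : ℕ, i + (1 + ρ) * j = N → j ≤ b → i + ρ * j ≤ a → mo L i j ∈ M := by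
    intro N
    induction N using Nat.strong_induction_on with
    | _ N ih =>
      intro i j hN hj hi
      by_cases hU : i < d ∨ j < d
      · refine ⟨0, by simp, ?_⟩
        intro i' j' h
        rw [mul_zero, sub_zero] at h
        have h1 := coeff_mo (1 : L) i j i' j'
        rw [C_1, C_1, one_mul] at h1
        rw [h1] at h
        have h2 : i' = i ∧ j' = j := by
          by_contra hc
          rw [if_neg hc] at h
          exact h rfl
        rw [h2.1, h2.2]
        exact ⟨hj, hi, hU⟩
      · push Not at hU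
        obtain ⟨p, rfl⟩ := Nat.exists_eq_add_of_le hU.1
        obtain ⟨q, rfl⟩ := Nat.exists_eq_add_of_le hU.2
        have h1 : mo L (d + p) (d + q) = f * mo L p q - (f - mo L d d) * mo L p q := by
          have : mo L (d + p) (d + q) = mo L d d * mo L p q := by
            unfold mo
            rw [pow_add, pow_add, C_mul]; ring
          rw [this]; ring
        rw [h1]
        apply M.sub_mem
        · refine ⟨mo L p q, ?_, ?_⟩
          · have : (mo L p q).natDegree ≤ q := natDegree_C_mul_X_pow_le _ _
            omega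
          · intro i' j' h
            rw [sub_self, coeff_zero, coeff_zero] at h
            exact absurd rfl h
        · apply hsum
          intro i' j' h
          -- coefficients of the product
          rw [coeff_mul2] at h
          obtain ⟨⟨l, l'⟩, hl, h2⟩ := Finset.exists_ne_zero_of_sum_ne_zero h
          obtain ⟨⟨k, k'⟩, hk, h3⟩ := Finset.exists_ne_zero_of_sum_ne_zero h2
          rw [Finset.HasAntidiagonal.mem_antidiagonal] at hl hk
          simp only at hl hk h3
          have h4 : ((f - mo L d d).coeff l).coeff k ≠ 0 := fun h => h3 (by rw [h, zero_mul])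
          have h5 : ((mo L p q).coeff l').coeff k' ≠ 0 := fun h => h3 (by rw [h, mul_zero])
          have h6 : k' = p ∧ l' = q := by
            have h7 := coeff_mo (1 : L) p q k' l'
            rw [C_1, C_1, one_mul] at h7
            rw [h7] at h5
            by_contra hc
            rw [if_neg hc] at h5
            exact h5 rfl
          obtain ⟨rfl, rfl⟩ := h6
          rw [coeff_sub, coeff_sub] at h4
          have h8 := coeff_mo (1 : L) d d k l
          rw [C_1, C_1, one_mul] at h8
          rw [h8] at h4
          have h9 : ¬ (k = d ∧ l = d) := by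
            rintro ⟨rfl, rfl⟩
            rw [hf.corner, if_pos ⟨rfl, rfl⟩, sub_self] at h4
            exact h4 rfl
          rw [if_neg h9, sub_zero] at h4
          have h10 := hf.mem k l h4
          have e1 : (1 + ρ) * d = d + ρ * d := by ring
          have e2 : (1 + ρ) * j' = j' + ρ * j' := by ring
          have e3 : (1 + ρ) * (d + l') = d + l' + (ρ * d + ρ * l') := by ring
          have e4 : ρ * j' = ρ * l + ρ * l' := by rw [← hl]; ring
          have e5 : ρ * (d + l') = ρ * d + ρ * l' := by ring
          apply ih (i' + (1 + ρ) * j') _ i' j' rfl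
          · omega
          · omega
          · by_cases hl2 : l = d
            · have hk2 : k ≠ d := fun h => h9 ⟨h, hl2⟩
              rw [hl2] at h10
              rw [hl2] at e4 hl
              omega
            · omega
  exact hsum G (fun i j h => hmono _ i j rfl (hG i j h).1 (hG i j h).2)

/-- the exponents in `V ρ L a b` which are not divisible by the corner -/
noncomputable def US (ρ d a b : ℕ) : Finset (ℕ × ℕ) :=
  ((Finset.range (a + 1)) ×ˢ (Finset.range (b + 1))).filter
    (fun x => x.1 + ρ * x.2 ≤ a ∧ (x.1 < d ∨ x.2 < d))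

theorem mem_US {ρ d a b : ℕ} {x : ℕ × ℕ} :
    x ∈ US ρ d a b ↔ x.2 ≤ b ∧ x.1 + ρ * x.2 ≤ a ∧ (x.1 < d ∨ x.2 < d) := by
  unfold US
  simp only [Finset.mem_filter, Finset.mem_product, Finset.mem_range]
  constructor
  · rintro ⟨⟨h1, h2⟩, h3, h4⟩
    exact ⟨by omega, h3, h4⟩
  · rintro ⟨h2, h3, h4⟩
    have : x.1 ≤ a := le_trans (Nat.le_add_right _ _) h3
    exact ⟨⟨by omega, by omega⟩, h3, h4⟩

/-- the residue of the numerator of a monomial -/
noncomputable def pv {L : Type*} [CommRing L] (m d b : ℕ) (f : L[X][Y]) (x : ℕ × ℕ) : L[X] :=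
  num m d b f (mo L x.1 x.2) %ₘ RR m d f

/-- combination of monomials -/
noncomputable def cb {L : Type*} [CommRing L] {U : Finset (ℕ × ℕ)} (c : U → L) : L[X][Y] :=
  ∑ x : U, C (C (c x)) * mo L x.1.1 x.1.2

theorem coeff_cb {L : Type*} [CommRing L] {U : Finset (ℕ × ℕ)} (c : U → L) (i j : ℕ) :
    ((cb c).coeff j).coeff i = if h : (i, j) ∈ U then c ⟨(i, j), h⟩ else 0 := by
  classical
  unfold cb
  rw [finsetSum_coeff, finsetSum_coeff]
  simp only [coeff_mo]
  split_ifs with h
  · rw [Finset.sum_eq_single (⟨(i, j), h⟩ : U)]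
    · simp
    · rintro ⟨⟨i', j'⟩, hx⟩ _ hne
      rw [if_neg]
      rintro ⟨h1, h2⟩
      simp only at h1 h2
      subst h1 h2
      exact hne rfl
    · intro h2; exact absurd (Finset.mem_univ _) h2
  · apply Finset.sum_eq_zero
    rintro ⟨⟨i', j'⟩, hx⟩ _
    rw [if_neg]
    rintro ⟨h1, h2⟩
    simp only at h1 h2
    apply h
    rw [h1, h2]
    exact hx

/-- the numerator of a combination, modulo `R` -/
theorem num_cb {L : Type*} [CommRing L] (m d b : ℕ) (f : L[X][Y]) {U : Finset (ℕ × ℕ)}
    (c : U → L) : ∃ q : L[X], num m d b f (cb c) =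
      (∑ x : U, C (c x) * pv m d b f x.1) + RR m d f * q := by
  refine ⟨∑ x : U, C (c x) * (num m d b f (mo L x.1.1 x.1.2) /ₘ RR m d f), ?_⟩
  unfold cb
  rw [num_sum, Finset.mul_sum, ← Finset.sum_add_distrib]
  apply Finset.sum_congr rfl
  intro x _
  rw [num_C_mul]
  unfold pv
  conv_lhs => rw [← modByMonic_add_div (num m d b f (mo L x.1.1 x.1.2)) (RR m d f)]
  ring

/-- over the field where `Sep` holds the residues are linearly independent -/
theorem indep {ρ m d a b : ℕ} {L : Type*} [Field L] {f : L[X][Y]} (hf : Good ρ d f)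
    (hsep : Sep ρ m d f) (hab : a + b ≤ m + d - 1) :
    LinearIndependent L (fun x : US ρ d a b => (fun n => (pv m d b f x.1).coeff n)) := by
  classical
  rw [Fintype.linearIndependent_iff]
  intro c hc
  have h1 : ∑ x : US ρ d a b, C (c x) * pv m d b f x.1 = 0 := by
    ext n
    rw [finsetSum_coeff, coeff_zero]
    have h2 := congrFun hc n
    rw [Finset.sum_apply] at h2
    simp only [Pi.smul_apply, smul_eq_mul, Pi.zero_apply] at h2
    rw [← h2]
    apply Finset.sum_congr rfl
    intro x _
    rw [coeff_C_mul]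
  obtain ⟨q, hq⟩ := num_cb m d b f c
  rw [h1, zero_add] at hq
  have hV : cb c ∈ V ρ L a b := by
    intro i j hij
    rw [coeff_cb] at hij
    split_ifs at hij with h
    · rw [mem_US] at h
      exact ⟨h.1, h.2.1⟩
    · exact absurd rfl hij
  obtain ⟨H, hH⟩ := hsep a b (cb c) hab hV ⟨q, hq⟩
  have hH0 : H = 0 := by
    apply top_mul hf
    intro i j hij
    rw [← hH, coeff_cb] at hij
    split_ifs at hij with h
    · rw [mem_US] at h
      exact h.2.2
    · exact absurd rfl hij
  rw [hH0, mul_zero] at hH
  rintro ⟨⟨i, j⟩, hx⟩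
  have h3 := coeff_cb c i j
  rw [hH, coeff_zero, coeff_zero, dif_pos hx] at h3
  exact h3.symm

theorem sem (hMon : MonStmt) (hNum : NumStmt) : SemStmt := by
  classical
  intro ρ d m A K L _ _ _ _ _ _ φ f hpar hf hsepL a b G hab hG hdvd
  have hfL : Good ρ d (bmap φ f) := good_bmap φ hf
  have hfK : Good ρ d (bmap (algebraMap A K) f) := good_bmap _ hf
  have hRA := (hMon ρ d m A f hpar hf).1
  have hRK := (hMon ρ d m K (bmap (algebraMap A K) f) hpar hfK)
  have hd1 : 1 ≤ d := by rcases hpar with h | h <;> omega
  have hnd : (bmap (algebraMap A K) f).natDegree ≤ d := by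
    rw [natDegree_le_iff_coeff_eq_zero]
    intro j hj
    ext i
    by_contra h0
    have := (hfK.mem i j (by simpa using h0)).1
    omega
  set fK' := bmap (algebraMap A K) f with hfK'
  -- it suffices to treat `G` supported on `US`
  have key : ∀ c : US ρ d a b → K, RR m d fK' ∣ num m d b fK' (cb c) → c = 0 := by
    intro c hc
    obtain ⟨μ, hμ⟩ := exists_minor _ (indep (a := a) (b := b) hfL hsepL hab)
    have hmapL : ∀ x : ℕ × ℕ, pv m d b (bmap φ f) x = (pv m d b f x).map φ := by
      intro x
      unfold pv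
      rw [map_modByMonic _ hRA, ← num_bmap, mo_bmap, RR_bmap]
    have hmapK : ∀ x : ℕ × ℕ, pv m d b fK' x = (pv m d b f x).map (algebraMap A K) := by
      intro x
      unfold pv
      rw [map_modByMonic _ hRA, ← num_bmap, mo_bmap, RR_bmap]
    have hdetL : (Matrix.of fun i i' : US ρ d a b => (pv m d b (bmap φ f) i.1).coeff (μ i')) =
        φ.mapMatrix (Matrix.of fun i i' : US ρ d a b => (pv m d b f i.1).coeff (μ i')) := by
      ext i i'
      simp only [Matrix.of_apply, RingHom.mapMatrix_apply, Matrix.map_apply]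
      rw [hmapL, coeff_map]
    have hdetK : (Matrix.of fun i i' : US ρ d a b => (pv m d b fK' i.1).coeff (μ i')) =
        (algebraMap A K).mapMatrix
          (Matrix.of fun i i' : US ρ d a b => (pv m d b f i.1).coeff (μ i')) := by
      ext i i'
      simp only [Matrix.of_apply, RingHom.mapMatrix_apply, Matrix.map_apply]
      rw [hmapK, coeff_map]
    have hdA : (Matrix.of fun i i' : US ρ d a b => (pv m d b f i.1).coeff (μ i')).det ≠ 0 := by
      intro h0
      apply hμ
      rw [hdetL, ← RingHom.map_det, h0, map_zero]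
    have hdK : (Matrix.of fun i i' : US ρ d a b => (pv m d b fK' i.1).coeff (μ i')).det ≠ 0 := by
      rw [hdetK, ← RingHom.map_det]
      intro h0
      exact hdA ((IsFractionRing.injective A K) (by rw [h0, map_zero]))
    -- the residue of the combination vanishes
    obtain ⟨q, hq⟩ := num_cb m d b fK' c
    have h1 : RR m d fK' ∣ ∑ x : US ρ d a b, C (c x) * pv m d b fK' x.1 := by
      have h2 : ∑ x : US ρ d a b, C (c x) * pv m d b fK' x.1 =
          num m d b fK' (cb c) - RR m d fK' * q := by rw [hq]; ring
      rw [h2]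
      exact dvd_sub hc (dvd_mul_right _ _)
    have h3 : ∑ x : US ρ d a b, C (c x) * pv m d b fK' x.1 = 0 := by
      by_contra hne
      have h4 := degree_le_of_dvd h1 hne
      have h5 : (∑ x : US ρ d a b, C (c x) * pv m d b fK' x.1).degree < (RR m d fK').degree := by
        apply (degree_sum_le _ _).trans_lt
        rw [Finset.sup_lt_iff (bot_lt_iff_ne_bot.2 (degree_ne_bot.2 hRK.1.ne_zero))]
        intro x _
        apply lt_of_le_of_lt _ (degree_modByMonic_lt (num m d b fK' (mo K x.1.1 x.1.2)) hRK.1)
        rw [C_mul']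
        exact degree_smul_le _ _
      exact absurd h4 (not_le.2 h5)
    apply Matrix.eq_zero_of_vecMul_eq_zero hdK
    ext x'
    have h6 : (∑ x : US ρ d a b, C (c x) * pv m d b fK' x.1).coeff (μ x') = 0 := by
      rw [h3, coeff_zero]
    rw [finsetSum_coeff] at h6
    simp only [coeff_C_mul] at h6
    simpa [Matrix.vecMul, dotProduct] using h6
  -- from a `G'` supported on `US` to a combination
  have hcb : ∀ G' : K[X][Y], (∀ i j, (G'.coeff j).coeff i ≠ 0 →
      j ≤ b ∧ i + ρ * j ≤ a ∧ (i < d ∨ j < d)) → RR m d fK' ∣ num m d b fK' G' → G' = 0 := by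
    intro G' hG' hdiv
    have h1 : G' = cb (U := US ρ d a b) (fun x => (G'.coeff x.1.2).coeff x.1.1) := by
      ext j i
      rw [coeff_cb]
      split_ifs with h
      · rfl
      · by_contra h0
        exact h (mem_US.2 (hG' i j h0))
    rw [h1] at hdiv
    have h2 := key _ hdiv
    rw [h1, h2]
    ext j i
    rw [coeff_cb]
    split_ifs <;> simp
  by_cases hdb : d ≤ b
  · obtain ⟨H, hH, hsupp⟩ := division hfK hdb G hG
    have h1 : RR m d fK' ∣ num m d b fK' (fK' * H) := by
      have h2 := hNum m d (b - d) K fK' H hd1 hnd hH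
      rw [Nat.sub_add_cancel hdb] at h2
      rw [h2]
      exact Dvd.intro _ (by ring : RR m d fK' * (fK'.coeff 0 * fK'.coeff d *
        num m d (b - d) fK' H) = _)
    have h3 : RR m d fK' ∣ num m d b fK' (G - fK' * H) := by
      have h4 : num m d b fK' G = num m d b fK' (G - fK' * H) + num m d b fK' (fK' * H) := by
        rw [← num_add, sub_add_cancel]
      rw [h4] at hdvd
      exact (dvd_add_left h1).1 hdvd
    have h5 := hcb _ hsupp h3
    exact ⟨H, sub_eq_zero.1 h5⟩
  · have h5 := hcb G (fun i j h => ⟨(hG i j h).1, (hG i j h).2, by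
      right; have := (hG i j h).1; omega⟩) hdvd
    rw [h5]
    exact dvd_zero _

end Pool.Agent.LDP.H26
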